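import Mathlib
import Pool.Agent.Lib.MP_7bc96b_al.Core
import Pool.Agent.Lib.MP_7bc96b_al.Sharp

set_option autoImplicit false

namespace Pool.Agent.Results.MP_7bc96b_al.TauAttained

/-- `B χ I` is the set of exponent vectors `m ∈ ℕ^n` with `m_1 χ_1 + ... + m_n χ_n = 0` and
support contained in `I`. -/
def B {X : Type*} [AddCommGroup X] {n : ℕ} (χ : Fin n → X) (I : Finset (Fin n)) :
    Set (Fin n → ℕ) :=
  {m | ∑ i, m i • χ i = 0 ∧ ∀ i, m i ≠ 0 → i ∈ I}

/-- The subgroup of `ℤ^n` generated by a set of vectors in `ℕ^n`. -/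
def groupGen {n : ℕ} (A : Set (Fin n → ℕ)) : AddSubgroup (Fin n → ℤ) :=
  AddSubgroup.closure ((fun m i => (m i : ℤ)) '' A)

/-- The set of integers `t ≥ 0` such that for every `I` the group generated by `B χ I` is
generated by the union of the `B χ J` with `J ⊆ I` and `|J| ≤ t`. Its least element is `τ`. -/
def admissible {X : Type*} [AddCommGroup X] {n : ℕ} (χ : Fin n → X) : Set ℕ :=
  {t | ∀ I : Finset (Fin n),
    groupGen (B χ I) = groupGen (⋃ J ∈ {J : Finset (Fin n) | J ⊆ I ∧ J.card ≤ t}, B χ J)}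

lemma image_B {X : Type*} [AddCommGroup X] {n : ℕ} (χ : Fin n → X) (I : Finset (Fin n)) :
    (fun (m : Fin n → ℕ) i => (m i : ℤ)) '' B χ I = Pool.Agent.Lib.MP_7bc96b_al.Rel χ I := by
  ext w
  constructor
  · rintro ⟨m, ⟨hm1, hm2⟩, rfl⟩
    refine ⟨fun i => by simp, fun i hi => ?_, ?_⟩
    · by_contra h
      exact hi (hm2 i (by simpa using h))
    · simpa using hm1
  · rintro ⟨h0, hI, hrel⟩
    refine ⟨fun i => (w i).toNat, ⟨?_, fun i hi => ?_⟩, ?_⟩
    · rw [← hrel]
      refine Finset.sum_congr rfl fun i _ => ?_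
      rw [← natCast_zsmul, Int.toNat_of_nonneg (h0 i)]
    · by_contra h
      exact hi (by simp [hI i h])
    · funext i
      exact Int.toNat_of_nonneg (h0 i)

theorem result (X : Type*) [AddCommGroup X] [AddGroup.FG X] :
    ∃ (n : ℕ) (χ : Fin n → X),
      IsLeast (admissible χ) (1 + Module.finrank ℤ X + AddGroup.rank X) := by
  classical
  obtain ⟨n, χ, u, p, hn, ⟨m0, hm0, hm0'⟩, hall⟩ := Pool.Agent.Lib.MP_7bc96b_al.exists_config X
  refine ⟨n, χ, fun I => ?_, fun t ht => ?_⟩
  · unfold groupGen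
    rw [image_B, Pool.Agent.Lib.MP_7bc96b_al.closure_eq χ I]
    congr 1
    simp only [Set.image_iUnion, image_B]
  · by_contra hlt
    have htn : t < n := by omega
    have h0 : (fun i => (m0 i : ℤ)) ∈ groupGen (B χ Finset.univ) :=
      AddSubgroup.subset_closure ⟨m0, ⟨hm0, fun i _ => Finset.mem_univ i⟩, rfl⟩
    rw [ht Finset.univ] at h0
    have key : ∀ w ∈ groupGen (⋃ J ∈ {J : Finset (Fin n) | J ⊆ Finset.univ ∧ J.card ≤ t}, B χ J),
        (p : ℤ) ∣ w u := by
      intro w hw
      induction hw using AddSubgroup.closure_induction with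
      | mem w hw =>
        obtain ⟨m, hm, rfl⟩ := hw
        simp only [Set.mem_iUnion] at hm
        obtain ⟨J, ⟨-, hJ⟩, hm1, hm2⟩ := hm
        obtain ⟨j, -, hj⟩ := Finset.exists_mem_notMem_of_card_lt_card
          (s := J) (t := Finset.univ) (by simp only [Finset.card_univ, Fintype.card_fin]; omega)
        have hj0 : m j = 0 := by
          by_contra h
          exact hj (hm2 j h)
        exact Int.natCast_dvd_natCast.mpr (hall m hm1 j hj0)
      | zero => simp
      | add a b _ _ ha hb => exact dvd_add ha hb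
      | neg a _ ha => exact (dvd_neg).mpr ha
    exact hm0' (Int.natCast_dvd_natCast.mp (key _ h0))

end Pool.Agent.Results.MP_7bc96b_al.TauAttained
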