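import Mathlib
import Pool.Agent.Lib.MP_7bc96b_al.Core

set_option autoImplicit false

namespace Pool.Agent.Results.MP_7bc96b_al.TauBound

/-- `B χ I` is the set of exponent vectors `m ∈ ℕ^n` with `m_1 χ_1 + ... + m_n χ_n = 0` and
support contained in `I`. -/
def B {X : Type*} [AddCommGroup X] {n : ℕ} (χ : Fin n → X) (I : Finset (Fin n)) :
    Set (Fin n → ℕ) :=
  {m | ∑ i, m i • χ i = 0 ∧ ∀ i, m i ≠ 0 → i ∈ I}

/-- The subgroup of `ℤ^n` generated by a set of vectors in `ℕ^n`. -/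
def groupGen {n : ℕ} (A : Set (Fin n → ℕ)) : AddSubgroup (Fin n → ℤ) :=
  AddSubgroup.closure ((fun m i => (m i : ℤ)) '' A)

/-- The set of integers `t ≥ 0` such that for every `I` the group generated by `B χ I` is
generated by the union of the `B χ J` with `J ⊆ I` and `|J| ≤ t`. Its least element is `τ`. -/
def admissible {X : Type*} [AddCommGroup X] {n : ℕ} (χ : Fin n → X) : Set ℕ :=
  {t | ∀ I : Finset (Fin n),
    groupGen (B χ I) = groupGen (⋃ J ∈ {J : Finset (Fin n) | J ⊆ I ∧ J.card ≤ t}, B χ J)}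

lemma image_B {X : Type*} [AddCommGroup X] {n : ℕ} (χ : Fin n → X) (I : Finset (Fin n)) :
    (fun (m : Fin n → ℕ) i => (m i : ℤ)) '' B χ I = Pool.Agent.Lib.MP_7bc96b_al.Rel χ I := by
  ext w
  constructor
  · rintro ⟨m, ⟨hm1, hm2⟩, rfl⟩
    refine ⟨fun i => by simp, fun i hi => ?_, ?_⟩
    · by_contra h
      exact hi (hm2 i (by simpa using h))
    · simpa using hm1
  · rintro ⟨h0, hI, hrel⟩
    refine ⟨fun i => (w i).toNat, ⟨?_, fun i hi => ?_⟩, ?_⟩
    · rw [← hrel]
      refine Finset.sum_congr rfl fun i _ => ?_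
      rw [← natCast_zsmul, Int.toNat_of_nonneg (h0 i)]
    · by_contra h
      exact hi (by simp [hI i h])
    · funext i
      exact Int.toNat_of_nonneg (h0 i)

theorem result (X : Type*) [AddCommGroup X] [AddGroup.FG X] (n : ℕ) (χ : Fin n → X) :
    ∃ τ : ℕ, IsLeast (admissible χ) τ ∧ τ ≤ 1 + Module.finrank ℤ X + AddGroup.rank X := by
  classical
  have hmem : 1 + Module.finrank ℤ X + AddGroup.rank X ∈ admissible χ := by
    intro I
    unfold groupGen
    rw [image_B, Pool.Agent.Lib.MP_7bc96b_al.closure_eq χ I]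
    congr 1
    simp only [Set.image_iUnion, image_B]
  have hex : ∃ t, t ∈ admissible χ := ⟨_, hmem⟩
  exact ⟨Nat.find hex, ⟨Nat.find_spec hex, fun t ht => Nat.find_min' hex ht⟩,
    Nat.find_min' hex hmem⟩

end Pool.Agent.Results.MP_7bc96b_al.TauBound
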